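import Mathlib

/-!
MP_f496b1_nt, Q1 (negated form): the congruence of the case `4p = 17x^2+3y^2` fails for `p = 17`.
-/

namespace Pool.Agent.Results.MP_f496b1_nt.FailsAtSeventeen

open Finset

/-- The generalised binomial coefficient `a(a-1)⋯(a-k+1)/k!`. -/
def gbinom (a : ℚ) (k : ℕ) : ℚ := (∏ i ∈ range k, (a - i)) / (k.factorial : ℚ)

/-- `S_1(p)` of the problem. -/
def S1 (p : ℕ) : ℚ := ∑ k ∈ range p, gbinom (-1 / 3) k * gbinom (-1 / 6) k / (-16) ^ k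

/-- `S_2(p)` of the problem. -/
def S2 (p : ℕ) : ℚ := ∑ k ∈ range p, gbinom (-2 / 3) k * gbinom (-5 / 6) k / (-16) ^ k

/-- `a ≡ b (mod p^2)` in `ℤ_(p)`: `a - b = p^2 w` with `w` of denominator prime to `p`. -/
def CongSq (p : ℕ) (a b : ℚ) : Prop :=
  ∃ w : ℚ, ¬ (p ∣ w.den) ∧ a - b = (p : ℚ) ^ 2 * w

/-- `ε_p = (17/16)^((1-(p/3))/2)`. -/
def eps (p : ℕ) : ℚ := if p % 3 = 2 then 17 / 16 else 1

/-- The asserted value in the case `4p = 17x^2+3y^2`: `(1/4) (x/3) (17x - p/x)`. -/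
def rhs17 (p : ℕ) (x : ℤ) : ℚ := 1 / 4 * (jacobiSym x 3 : ℚ) * (17 * x - (p : ℚ) / x)

/-- There is a prime `p > 3` (namely `p = 17`) and integers `x, y` with `4p = 17x^2+3y^2` for which
both `S_1(p) ≡ (1/4)(x/3)(17x - p/x)` and `(17/p) ε_p S_2(p) ≡ (1/4)(x/3)(17x - p/x)` fail
modulo `p^2`. -/
theorem result : ∃ (p : ℕ) (_ : Fact p.Prime) (x y : ℤ), 3 < p ∧
    4 * (p : ℤ) = 17 * x ^ 2 + 3 * y ^ 2 ∧
    ¬ CongSq p (S1 p) (rhs17 p x) ∧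
    ¬ CongSq p ((legendreSym p 17 : ℚ) * eps p * S2 p) (rhs17 p x) := by
  refine ⟨17, ⟨by norm_num⟩, 2, 0, by norm_num, by norm_num, ?_, ?_⟩
  · rintro ⟨w, hw, h⟩
    have h' : w = (S1 17 - rhs17 17 2) / ((17 : ℕ) : ℚ) ^ 2 := by
      rw [h]; norm_num
    apply hw
    rw [h']
    have hj : rhs17 17 2 = 1 / 4 * ((-1 : ℤ) : ℚ) * (17 * ((2 : ℤ) : ℚ) - ((17 : ℕ) : ℚ) / ((2 : ℤ) : ℚ)) := by
      have : jacobiSym 2 3 = -1 := by norm_num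
      unfold rhs17
      rw [this]
    rw [hj]
    decide +kernel
  · have hz : ((17 : ℤ) : ZMod 17) = 0 := by decide
    have hl : ∀ h : Fact (Nat.Prime 17), @legendreSym 17 h 17 = 0 := by
      intro h
      rw [legendreSym.eq_zero_iff]
      exact hz
    rw [hl]
    rintro ⟨w, hw, h⟩
    have hj : rhs17 17 2 = 1 / 4 * ((-1 : ℤ) : ℚ) * (17 * ((2 : ℤ) : ℚ) - ((17 : ℕ) : ℚ) / ((2 : ℤ) : ℚ)) := by
      have : jacobiSym 2 3 = -1 := by norm_num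
      unfold rhs17
      rw [this]
    have h' : w = (((0 : ℤ) : ℚ) * eps 17 * S2 17 - rhs17 17 2) / ((17 : ℕ) : ℚ) ^ 2 := by
      rw [h]; norm_num
    apply hw
    rw [h', hj]
    decide +kernel

end Pool.Agent.Results.MP_f496b1_nt.FailsAtSeventeen
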